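import Pool.Agent.Helper78.W3.StD

/-!
Project W3 (MP_3c9520_nt), module HKB: Hecke sums in balanced levels, level a power of three.
-/

set_option autoImplicit false

namespace Pool.Agent.Helper83.W3

open Pool.Agent.Helper78.W3 Pool.Agent.Helper14.W3
open Pool.Agent.Helper14.CV (Homog EqC act Tl ne_zero_of_det)

/-- representatives of the Hecke sum multiplied by a matrix -/
private def dl (l : ℕ) (a b c d : ℤ) : Fin (l + 1) → Matrix (Fin 2) (Fin 2) ℤ :=
  Fin.lastCases (motive := fun _ => Matrix (Fin 2) (Fin 2) ℤ) !![(l : ℤ) * a, (l : ℤ) * b; c, d]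
    (fun j : Fin l => !![a + (j : ℕ) * c, b + (j : ℕ) * d; (l : ℤ) * c, (l : ℤ) * d])

private lemma dl_last (l : ℕ) (a b c d : ℤ) : dl l a b c d (Fin.last l) = !![(l : ℤ) * a, (l : ℤ) * b; c, d] := by
  unfold dl
  rw [Fin.lastCases_last]

private lemma dl_cast (l : ℕ) (a b c d : ℤ) (j : Fin l) :
    dl l a b c d j.castSucc = !![a + (j : ℕ) * c, b + (j : ℕ) * d; (l : ℤ) * c, (l : ℤ) * d] := by
  unfold dl
  rw [Fin.lastCases_castSucc]

private lemma homog_Tl (R : Type) [AddCommGroup R] (l : ℕ) (hl : l ≠ 0) (G : ℤ → ℤ → R) (hG : Homog G) :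
    Homog (Tl l 1 G) := by
  intro k p q hk hpq
  have hl' : (l : ℤ) ≠ 0 := by exact_mod_cast hl
  unfold Tl
  have e1 : G ((l : ℤ) * (k * p)) (k * q) = G ((l : ℤ) * p) q := by
    have h := hG k ((l : ℤ) * p) q hk (by
      rcases hpq with h | h
      · exact Or.inl (mul_ne_zero hl' h)
      · exact Or.inr h)
    rw [← h]
    congr 1
    ring
  rw [e1]
  congr 1
  refine Finset.sum_congr rfl fun j _ => ?_
  have h := hG k (p + 1 * (j : ℤ) * q) ((l : ℤ) * q) hk (by
    by_cases hq : q = 0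
    · left
      rcases hpq with h | h
      · rw [hq, mul_zero, add_zero]
        exact h
      · exact absurd hq h
    · exact Or.inr (mul_ne_zero hl' hq))
  rw [← h]
  congr 1 <;> ring

/-- The Hecke operators preserve symbols of level `(0, n)`. -/
private theorem hks0 (hHk : S3Hk) (R : Type) [AddCommGroup R] (n l : ℕ) (G : ℤ → ℤ → R)
    (hl : l.Prime) (hl2 : l ≠ 3) (hG : Sym3 0 n G) : Sym3 0 n (Tl l 1 G) := by
  have hl0 : l ≠ 0 := hl.ne_zero
  have hl1 : ¬ ((l : ℤ) ∣ 1) := by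
    intro h
    have h1 := Int.natCast_dvd_natCast.1 (by exact_mod_cast h : ((l : ℕ) : ℤ) ∣ ((1 : ℕ) : ℤ))
    exact hl.one_lt.ne' (Nat.dvd_one.1 h1)
  refine ⟨homog_Tl R l hl0 G hG.1, ?_⟩
  intro a b c d hdet _ hc
  have key := hHk R _ n l G hl hl2 hG (dl l a b c d) (fun P => by
      refine Fin.lastCases ?_ (fun j => ?_) P
      · rw [dl_last, Matrix.det_fin_two_of]
        linear_combination (l : ℤ) * hdet
      · rw [dl_cast, Matrix.det_fin_two_of]
        linear_combination (l : ℤ) * hdet)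
    (fun P => by
      refine Fin.lastCases ?_ (fun j => ?_) P
      · rw [dl_last]
        simpa using hc
      · rw [dl_cast]
        simpa using Dvd.dvd.mul_left hc (l : ℤ))
    (fun P P' => by
      refine Fin.lastCases ?_ (fun j => ?_) P <;> refine Fin.lastCases ?_ (fun j' => ?_) P'
      · intro h
        exact absurd rfl h
      · intro _ h
        have h1 := h 1 1
        rw [dl_last, dl_cast, Matrix.adjugate_fin_two_of] at h1
        simp only [Matrix.mul_apply, Fin.sum_univ_two, Matrix.of_apply, Matrix.cons_val', Matrix.cons_val_zero,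
          Matrix.cons_val_one, Matrix.cons_val_fin_one] at h1
        apply hl1
        have e : c * -(b + (j' : ℕ) * d) + d * (a + (j' : ℕ) * c) = 1 := by linear_combination hdet
        rwa [e] at h1
      · intro _ h
        have h1 := h 0 0
        rw [dl_last, dl_cast, Matrix.adjugate_fin_two_of] at h1
        simp only [Matrix.mul_apply, Fin.sum_univ_two, Matrix.of_apply, Matrix.cons_val', Matrix.cons_val_zero,
          Matrix.cons_val_one, Matrix.cons_val_fin_one] at h1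
        apply hl1
        have e : (a + (j : ℕ) * c) * d + (b + (j : ℕ) * d) * -c = 1 := by linear_combination hdet
        rwa [e] at h1
      · intro hne h
        have h1 := h 0 1
        rw [dl_cast, dl_cast, Matrix.adjugate_fin_two_of] at h1
        simp only [Matrix.mul_apply, Fin.sum_univ_two, Matrix.of_apply, Matrix.cons_val', Matrix.cons_val_zero,
          Matrix.cons_val_one, Matrix.cons_val_fin_one] at h1
        have e : (a + (j : ℕ) * c) * -(b + (j' : ℕ) * d) + (b + (j : ℕ) * d) * (a + (j' : ℕ) * c)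
            = ((j : ℕ) : ℤ) - ((j' : ℕ) : ℤ) := by linear_combination (((j : ℕ) : ℤ) - ((j' : ℕ) : ℤ)) * hdet
        rw [e] at h1
        apply hne
        congr 1
        apply Fin.ext
        have hj := j.isLt
        have hj' := j'.isLt
        have h2 : ((j : ℕ) : ℤ) - ((j' : ℕ) : ℤ) = 0 := by
          apply Int.eq_zero_of_abs_lt_dvd h1
          rw [abs_lt]
          constructor <;> omega
        omega)
  have e : act a b c d (Tl l 1 G) = fun p q => ∑ P, G (dl l a b c d P 0 0 * p + dl l a b c d P 0 1 * q)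
      (dl l a b c d P 1 0 * p + dl l a b c d P 1 1 * q) := by
    funext p q
    rw [Fin.sum_univ_castSucc]
    simp only [dl_last, dl_cast, Matrix.of_apply, Matrix.cons_val', Matrix.cons_val_zero,
      Matrix.cons_val_one, Matrix.cons_val_fin_one]
    unfold act Tl
    rw [Finset.sum_range, add_comm]
    congr 1
    · refine Finset.sum_congr rfl fun j _ => ?_
      congr 1 <;> ring
    · congr 1
      ring
  rw [e]
  exact key

variable {R : Type} [AddCommGroup R]

private theorem Sym3_congr {r s : ℕ} {G H : ℤ → ℤ → R} (h : EqC G H) (hH : Sym3 r s H) :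
    Sym3 r s G := by
  refine ⟨?_, ?_⟩
  · obtain ⟨c, hc⟩ := h
    intro k p q hk hpq
    have h2 : k * p ≠ 0 ∨ k * q ≠ 0 := by
      rcases hpq with hp | hq
      · exact Or.inl (mul_ne_zero hk hp)
      · exact Or.inr (mul_ne_zero hk hq)
    rw [hc _ _ h2, hc _ _ hpq, hH.1 k p q hk hpq]
  · intro a b c d hd hb hc
    have hne : a * d - b * c ≠ 0 := by rw [hd]; exact one_ne_zero
    exact ((h.act hne).trans (hH.2 a b c d hd hb hc)).trans h.symm

/-- From the balanced level to level `(0, r + s)`. -/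
private theorem toZero {r s : ℕ} {G : ℤ → ℤ → R} (h : Sym3 r s G) :
    Sym3 0 (r + s) (act (3 ^ r) 0 0 1 G) := by
  refine h.act (by simp) ?_
  intro a b c d hd _ hc
  obtain ⟨e, he⟩ := hc
  refine ⟨a, 3 ^ r * b, 3 ^ s * e, d, ?_, Dvd.intro _ rfl, Dvd.intro _ rfl, by ring, by ring, ?_,
    by ring⟩
  · rw [pow_add] at he
    rw [← hd, he]
    ring
  · rw [he, pow_add]
    ring

/-- Back. -/
private theorem ofZero {r s : ℕ} {H : ℤ → ℤ → R} (h : Sym3 0 (r + s) H) :
    Sym3 r s (act 1 0 0 (3 ^ r) H) := by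
  refine h.act (by simp) ?_
  intro a b c d hd hb _
  obtain ⟨e, he⟩ := hb
  rename_i hc
  obtain ⟨f, hf⟩ := hc
  refine ⟨a, e, 3 ^ r * c, d, ?_, ?_, ?_, by ring, ?_, by ring, by ring⟩
  · rw [← hd, he]
    ring
  · simp
  · rw [hf, pow_add]
    exact ⟨f, by ring⟩
  · rw [he]
    ring

private theorem ne1 {l : ℕ} (hl : l ≠ 0) {p q : ℤ} (hpq : p ≠ 0 ∨ q ≠ 0) :
    (l : ℤ) * p ≠ 0 ∨ q ≠ 0 := by
  rcases hpq with hp | hq
  · exact Or.inl (mul_ne_zero (by exact_mod_cast hl) hp)
  · exact Or.inr hq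

private theorem ne2 {l : ℕ} (hl : l ≠ 0) (m : ℤ) {p q : ℤ} (hpq : p ≠ 0 ∨ q ≠ 0) :
    p + m * q ≠ 0 ∨ (l : ℤ) * q ≠ 0 := by
  by_cases hq : q = 0
  · subst hq
    left
    rcases hpq with hp | hq
    · simpa using hp
    · exact absurd rfl hq
  · exact Or.inr (mul_ne_zero (by exact_mod_cast hl) hq)

/-- The comparison of the two Hecke operators. -/
private theorem Tl_eq {r : ℕ} {l : ℕ} (hl : l ≠ 0) {G : ℤ → ℤ → R} (hG : Homog G) {p q : ℤ}
    (hpq : p ≠ 0 ∨ q ≠ 0) :
    Tl l 1 (act (3 ^ r) 0 0 1 G) p (3 ^ r * q) = Tl l (3 ^ r) G p q := by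
  have hr : (3 : ℤ) ^ r ≠ 0 := pow_ne_zero _ three_ne_zero
  unfold Tl act
  congr 1
  · rw [← hG (3 ^ r) ((l : ℤ) * p) q hr (ne1 hl hpq)]
    congr 1 <;> ring
  · refine Finset.sum_congr rfl fun j _ => ?_
    rw [← hG (3 ^ r) (p + 3 ^ r * (j : ℤ) * q) ((l : ℤ) * q) hr (ne2 hl _ hpq)]
    congr 1 <;> ring

/-- MODULE HKB. -/
theorem hHkB (hHk : S3Hk) : S3HkB := by
  intro R _ r s l G hl hl2 hG
  have hl0 : l ≠ 0 := hl.ne_zero
  have hr : (3 : ℤ) ^ r ≠ 0 := pow_ne_zero _ three_ne_zero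
  have hG0 := toZero hG
  have hne : ∀ {p q : ℤ}, (p ≠ 0 ∨ q ≠ 0) → (p ≠ 0 ∨ (3 : ℤ) ^ r * q ≠ 0) := by
    intro p q hpq
    rcases hpq with hp | hq
    · exact Or.inl hp
    · exact Or.inr (mul_ne_zero hr hq)
  refine ⟨?_, ?_⟩
  · refine Sym3_congr (H := act 1 0 0 (3 ^ r) (Tl l 1 (act (3 ^ r) 0 0 1 G))) ?_
      (ofZero (hks0 hHk R (r + s) l _ hl hl2 hG0))
    refine EqC.of_eq fun p q hpq => ?_
    rw [← Tl_eq hl0 hG.1 hpq]
    unfold act
    congr 1 <;> ring
  · intro δ hdet h01 h10 hdis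
    choose b hb using h01
    choose c hc using h10
    set δ' : Fin (l + 1) → Matrix (Fin 2) (Fin 2) ℤ := fun P =>
      !![δ P 0 0, b P; 3 ^ r * δ P 1 0, δ P 1 1] with hδ'
    have hdet' : ∀ P, (δ' P).det = l := by
      intro P
      rw [hδ', Matrix.det_fin_two_of, ← hdet P, Matrix.det_fin_two, hb P]
      ring
    have h10' : ∀ P, (3 : ℤ) ^ (r + s) ∣ δ' P 1 0 := by
      intro P
      refine ⟨c P, ?_⟩
      have : δ' P 1 0 = 3 ^ r * δ P 1 0 := by rw [hδ']; rfl
      rw [this, hc P, pow_add]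
      ring
    have hcop : IsCoprime (l : ℤ) ((3 : ℤ) ^ r) := by
      have h1 : Nat.Coprime l 3 := (Nat.coprime_primes hl Nat.prime_three).2 hl2
      have h2 : IsCoprime (l : ℤ) ((3 : ℕ) : ℤ) := Nat.isCoprime_iff_coprime.2 h1
      exact IsCoprime.pow_right (by exact_mod_cast h2)
    have hdis' : ∀ P P', P ≠ P' → ¬ ∀ i j, (l : ℤ) ∣ (δ' P * (δ' P').adjugate) i j := by
      intro P P' hP hall
      apply hdis P P' hP
      have e1 : δ' P * (δ' P').adjugate =
          !![δ P 0 0 * δ P' 1 1 - b P * (3 ^ r * δ P' 1 0), b P * δ P' 0 0 - δ P 0 0 * b P';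
            3 ^ r * δ P 1 0 * δ P' 1 1 - δ P 1 1 * (3 ^ r * δ P' 1 0),
            δ P 1 1 * δ P' 0 0 - 3 ^ r * δ P 1 0 * b P'] := by
        rw [hδ', Matrix.adjugate_fin_two_of, Matrix.mul_fin_two]
        congr 1
        simp only [Matrix.vecCons_inj, and_true]
        refine ⟨⟨?_, ?_⟩, ?_, ?_⟩ <;> ring
      have e2 : δ P * (δ P').adjugate =
          !![δ P 0 0 * δ P' 1 1 - δ P 0 1 * δ P' 1 0, δ P 0 1 * δ P' 0 0 - δ P 0 0 * δ P' 0 1;
            δ P 1 0 * δ P' 1 1 - δ P 1 1 * δ P' 1 0,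
            δ P 1 1 * δ P' 0 0 - δ P 1 0 * δ P' 0 1] := by
        rw [Matrix.adjugate_fin_two]
        conv_lhs => rw [Matrix.eta_fin_two (δ P)]
        rw [Matrix.mul_fin_two]
        congr 1
        simp only [Matrix.vecCons_inj, and_true]
        refine ⟨⟨?_, ?_⟩, ?_, ?_⟩ <;> ring
      rw [e1] at hall
      rw [e2]
      have h00 := hall 0 0
      have h01 := hall 0 1
      have h10 := hall 1 0
      have h11 := hall 1 1
      simp only [Matrix.of_apply, Matrix.cons_val', Matrix.cons_val_zero, Matrix.cons_val_one,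
        Matrix.cons_val_fin_one] at h00 h01 h10 h11
      intro i j
      fin_cases i <;> fin_cases j <;>
        simp only [Matrix.of_apply, Matrix.cons_val', Matrix.cons_val_zero, Matrix.cons_val_one,
          Matrix.cons_val_fin_one, Fin.zero_eta, Fin.mk_one, Fin.isValue]
      · rw [hb P]
        have : δ P 0 0 * δ P' 1 1 - 3 ^ r * b P * δ P' 1 0 =
          δ P 0 0 * δ P' 1 1 - b P * (3 ^ r * δ P' 1 0) := by ring
        rw [this]
        exact h00
      · rw [hb P, hb P']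
        have : 3 ^ r * b P * δ P' 0 0 - δ P 0 0 * (3 ^ r * b P') =
          3 ^ r * (b P * δ P' 0 0 - δ P 0 0 * b P') := by ring
        rw [this]
        exact Dvd.dvd.mul_left h01 _
      · have : 3 ^ r * δ P 1 0 * δ P' 1 1 - δ P 1 1 * (3 ^ r * δ P' 1 0) =
          3 ^ r * (δ P 1 0 * δ P' 1 1 - δ P 1 1 * δ P' 1 0) := by ring
        rw [this] at h10
        exact hcop.dvd_of_dvd_mul_left h10
      · rw [hb P']
        have : δ P 1 1 * δ P' 0 0 - δ P 1 0 * (3 ^ r * b P') =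
          δ P 1 1 * δ P' 0 0 - 3 ^ r * δ P 1 0 * b P' := by ring
        rw [this]
        exact h11
    obtain ⟨k, hk⟩ := hHk R _ (r + s) l _ hl hl2 hG0 δ' hdet' h10' hdis'
    refine ⟨k, fun p q hpq => ?_⟩
    have h1 := hk p (3 ^ r * q) (hne hpq)
    rw [Tl_eq hl0 hG.1 hpq] at h1
    rw [← h1]
    refine Finset.sum_congr rfl fun P _ => ?_
    have hdne : δ P 0 0 * δ P 1 1 - δ P 0 1 * δ P 1 0 ≠ 0 := by
      rw [← Matrix.det_fin_two, hdet P]
      exact_mod_cast hl0
    rw [← hG.1 (3 ^ r) _ _ hr (ne_zero_of_det hdne hpq)]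
    have a00 : δ' P 0 0 = δ P 0 0 := by rw [hδ']; rfl
    have a01 : δ' P 0 1 = b P := by rw [hδ']; rfl
    have a10 : δ' P 1 0 = 3 ^ r * δ P 1 0 := by rw [hδ']; rfl
    have a11 : δ' P 1 1 = δ P 1 1 := by rw [hδ']; rfl
    unfold act
    rw [a00, a01, a10, a11, hb P]
    congr 1 <;> ring

end Pool.Agent.Helper83.W3
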